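import Mathlib
import Pool.Agent.N573.AEP.E

/-!
# Moments of L-functions of GL(m) over families: almost every point decides

Let `m ≥ 1`.  For each `i` in an arbitrary index set let `L(s, π_ij)`, `j ∈ J_i`, be finitely many L-functions
of `GL(m)` of conductor at most `Y_i` and `w_ij ≥ 0` weights with `∑_j w_ij ≤ A Y_i^A`; let `p > 0`,
`S_i(t) = ∑_j w_ij |L(1/2 + it, π_ij)|^p` and `X_i(t) = (1 + |t|) Y_i`.  (One L-function, `p = 1`: the quantity
of the Grand Lindelöf Hypothesis; `Y_i = q`, `J_i` the characters mod `q`: the moments of a family.)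

1. Large moments are never isolated: if `0 < κ < μ`, `X_i(T)` is large and `S_i(T) ≥ X_i(T)^μ`, then
   `S_i(x) > X_i(T)^κ` on a proportion `≥ δ` of `[T - h, T + h]` for every `0 < h ≤ 1`, `δ > 0` depending only
   on `κ, μ, p, m, A` and the constants of the family.
2. So a bound `O(X^(κ + ε))` holds at all the points of a set as soon as it holds, for each of these points,
   outside `o(w)` of one window of radius `w ≤ 1`, arbitrary, around it.
3. Translations.  Let `P` be a set of pairs `(i, t)` (for instance all `(i, 0)`: the conductor aspect) and say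
   that `u` is good if `S_i(t + u) = O(X^(κ + ε))` for `(i, t) ∈ P`, the constants depending on `u` in an
   arbitrary way.  If `u₀` is not good, then a positive proportion of `[u₀ - h, u₀ + h]`, for all `h ≤ 1`, is
   not good.  If almost every `u` in an open set `U` is good then every `u ∈ U` is, uniformly on compact subsets.
   In particular the bound for all `i` and all real `T` is equivalent to the bound at `n + u`, `n ∈ ℤ`, for
   almost every `u`, with constants which depend on `u`.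
4. Dilations.  For almost every `α` the bound at sample points `a_l + α b_l` of any system `(i_l, a_l, b_l)`
   implies the bound at all points within bounded distance of these samples for `|b_l|` large.  In particular:
   if the `α` such that the bound holds at all `n α`, `n ∈ ℤ`, form a set of positive measure, then the bound
   holds for all `i` and all large `|T|`.

The theorem uses only the functional equations, `Re μ_j < 1/2`, finite order and Molteni's bound; for primitive
Dirichlet characters of modulus `> 1` all this is proved, and the theorem holds with no hypothesis.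

Proof of 1.  `N = S^(1/p)`, extended to the complex plane, is a limit from below of `|g|^(1/n)`, where `g` is a
product of powers of the L-functions with total degree `n` and `|g| ≤ N^n` everywhere (weighted inequality of
the means).  So `log⁺ N` satisfies Jensen's inequality on small circles around `1/2 + iT` and the Poisson
inequality in the half plane `Re s > 1/2`, and `N(1/2 - σ + it) ≤ C X^(m σ) N(1/2 + σ + it)`.
-/

set_option autoImplicit false

open Filter Topology MeasureTheory Real Set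

namespace Pool.Agent.Results.MP_52e316_nt.AlmostEveryPointMoments

/-- The data of a standard L-function of `GL(m)`: the conductor `N`, the archimedean parameters `mu j` (the
factor at infinity is `∏ j, Γ_ℝ (s - mu j)`) and the L-function `f` (continued to the complex plane). -/
structure Datum (m : ℕ) where
  N : ℕ
  mu : Fin m → ℂ
  f : ℂ → ℂ

/-- The analytic conductor `C = N ∏ j, (1 + |mu j|)`. -/
noncomputable def Datum.C {m : ℕ} (D : Datum m) : ℝ := D.N * ∏ j, (1 + ‖D.mu j‖)

/-- The classical properties: `N ≥ 1`, `Re (mu j) < 1/2`, `f` is entire, of finite order in the strip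
`-1/4 ≤ Re s ≤ 5/4`, and satisfies the functional equation `Λ(s) = root N^(1/2-s) conj (Λ(1 - conj s))`,
`Λ(s) = f(s) ∏ j, Γ_ℝ (s - mu j)`, with `|root| = 1` (divided by the gamma factors of both sides). -/
structure Datum.Ok {m : ℕ} (D : Datum m) : Prop where
  N_pos : 0 < D.N
  mu_re : ∀ j, (D.mu j).re < 1 / 2
  entire : Differentiable ℂ D.f
  order : ∃ A : ℝ, ∀ s : ℂ, -1 / 4 ≤ s.re → s.re ≤ 5 / 4 →
    ‖D.f s‖ ≤ Real.exp (A * (1 + |s.im|) ^ A)
  fe : ∃ root : ℂ, ‖root‖ = 1 ∧ ∀ s : ℂ,
    D.f s * ∏ j, (Complex.Gammaℝ (1 - s - (starRingEnd ℂ) (D.mu j)))⁻¹ =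
      root * (D.N : ℂ) ^ (1 / 2 - s) * (starRingEnd ℂ) (D.f (1 - (starRingEnd ℂ) s)) *
        ∏ j, (Complex.Gammaℝ (s - D.mu j))⁻¹

/-- Molteni's bound to the right of the critical strip, uniform in the family. -/
def Molteni {ι : Type} {m : ℕ} (D : ι → Datum m) : Prop := ∀ ε : ℝ, 0 < ε → ∃ B : ℝ, ∀ (i : ι) (s : ℂ),
  1 + ε ≤ s.re → ‖(D i).f s‖ ≤ B * (D i).C ^ ε

section definitions

variable {ι : Type}

/-- The weighted `p`-th moment at `1/2 + it` of the finitely many L-functions `L i j`. -/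
noncomputable def Moment {J : ι → Type} [∀ i, Fintype (J i)] (L : (i : ι) → J i → ℂ → ℂ)
    (w : (i : ι) → J i → ℝ) (p : ℝ) (i : ι) (t : ℝ) : ℝ :=
  ∑ j, w i j * ‖L i j (1 / 2 + t * Complex.I)‖ ^ p

/-- `S_i(T) = O(X_i(T)^(κ + ε))` at all points `(i, T)` of `P`. -/
def Bound (S X : ι → ℝ → ℝ) (κ : ℝ) (P : Set (ι × ℝ)) : Prop :=
  ∀ ε : ℝ, 0 < ε → ∃ B : ℝ, ∀ (i : ι) (T : ℝ), (i, T) ∈ P → S i T ≤ B * X i T ^ (κ + ε)

/-- The set `P` translated by `u`: all `(i, t + u)` with `(i, t)` in `P`. -/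
def translate (P : Set (ι × ℝ)) (u : ℝ) : Set (ι × ℝ) := {x | (x.1, x.2 - u) ∈ P}

/-- 1. Large moments persist at all scales. -/
def Persistent (S X : ι → ℝ → ℝ) : Prop := ∀ κ μ : ℝ, 0 < κ → κ < μ →
  ∃ δ X₀ : ℝ, 0 < δ ∧ ∀ (i : ι) (T : ℝ), X₀ ≤ X i T → X i T ^ μ ≤ S i T →
    ∀ h : ℝ, 0 < h → h ≤ 1 → ENNReal.ofReal (δ * h) < volume {x : ℝ | |x - T| ≤ h ∧ X i T ^ κ < S i x}

/-- 2. Windows. -/
def Windows (S X : ι → ℝ → ℝ) : Prop := ∀ (κ : ℝ) (P : Set (ι × ℝ)) (w : ι → ℝ → ℝ), 0 ≤ κ →
  (∀ i T, 0 < w i T ∧ w i T ≤ 1) →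
  (∀ ε : ℝ, 0 < ε → ∀ η : ℝ, 0 < η → ∃ X₀ : ℝ, ∀ (i : ι) (T : ℝ), (i, T) ∈ P → X₀ ≤ X i T →
    volume {x : ℝ | |x - T| ≤ w i T ∧ X i T ^ (κ + ε) < S i x} ≤ ENNReal.ofReal (η * w i T)) →
  Bound S X κ P

/-- 3. Translations: a translation for which the bound fails is a point of positive lower density of the set
of such translations; a bound for almost every translation in an open set is locally uniform; in particular
the bound for all `i` and all real `T` is decided by almost every translate of the integers. -/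
def Translations (S X : ι → ℝ → ℝ) : Prop := ∀ κ : ℝ, 0 ≤ κ →
  (∀ (P : Set (ι × ℝ)) (u₀ : ℝ), ¬ Bound S X κ (translate P u₀) → ∃ δ : ℝ, 0 < δ ∧ ∀ h : ℝ, 0 < h → h ≤ 1 →
    ENNReal.ofReal (δ * h) ≤ volume {u : ℝ | |u - u₀| ≤ h ∧ ¬ Bound S X κ (translate P u)}) ∧
  (∀ (P : Set (ι × ℝ)) (U K : Set ℝ), IsOpen U → IsCompact K → K ⊆ U →
    (∀ᵐ u : ℝ, u ∈ U → Bound S X κ (translate P u)) → Bound S X κ {x | ∃ u ∈ K, x ∈ translate P u}) ∧
  (Bound S X κ univ ↔ ∀ᵐ u : ℝ, Bound S X κ {x | ∃ n : ℤ, x.2 = n + u})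

/-- 4. Dilations: for almost every `α` the bound at the sample points `a l + α b l` implies the bound at all
points at bounded distance from the samples with `|b l|` large; in particular a bound at all `n α`, for the
`α` in a set of positive (outer) measure, implies the bound for all large `|T|`. -/
def Dilations (S X : ι → ℝ → ℝ) : Prop :=
  (∀ (Λ : Type) (i : Λ → ι) (a b : Λ → ℝ), ∀ᵐ α : ℝ, ∀ κ : ℝ, 0 ≤ κ →
    Bound S X κ {x | ∃ l, i l = x.1 ∧ a l + α * b l = x.2} → ∀ C ε : ℝ, 0 < ε → ∃ R B : ℝ,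
      ∀ (l : Λ) (T : ℝ), |T - (a l + α * b l)| ≤ C → R ≤ |b l| → S (i l) T ≤ B * X (i l) T ^ (κ + ε)) ∧
  (∀ κ : ℝ, 0 ≤ κ → 0 < volume {α : ℝ | Bound S X κ {x | ∃ n : ℤ, x.2 = n * α}} →
    ∀ ε : ℝ, 0 < ε → ∃ R B : ℝ, ∀ (i : ι) (T : ℝ), R ≤ |T| → S i T ≤ B * X i T ^ (κ + ε))

/-- The conclusion for the functions `S i` on the critical line, with conductors `X i`. -/
def Conclusion (S X : ι → ℝ → ℝ) : Prop :=
  Persistent S X ∧ Windows S X ∧ Translations S X ∧ Dilations S X

end definitions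

section proofs

open Pool.Agent.N573.AEP H855R2.SF

theorem conclusion_of {ι : Type} {S X : ι → ℝ → ℝ} (H : Pers S X) : Conclusion S X := by
  refine ⟨fun κ μ h1 h2 => ?_, fun κ P w hκ hw h => H.windows hκ P hw h, fun κ hκ =>
    ⟨fun P u₀ h => H.trans_point hκ P h, fun P U K hU hK hKU h => ?_, H.lattice hκ⟩,
    fun Λ i a b => H.dilations i a b, fun κ hκ h => H.zero_one hκ h⟩
  · obtain ⟨δ, hδ, X₀, h⟩ := H.persist κ μ h1 h2
    exact ⟨δ, X₀, hδ, h⟩
  · intro ε hε
    obtain ⟨B, hB⟩ := H.trans_unif hκ P hU hK hKU h ε hε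
    refine ⟨B, fun i T hT => ?_⟩
    obtain ⟨u, hu, hx⟩ := hT
    have := hB i (T - u) u hx hu
    rwa [sub_add_cancel] at this

theorem Datum.C_one {m : ℕ} {D : Datum m} (h : 0 < D.N) : 1 ≤ D.C := by
  have := cond_one_le h D.mu 0
  unfold Datum.C
  simpa using this

theorem afam_gl {ι : Type} {m : ℕ} (hm : 1 ≤ m) {D : ι → Datum m} (hD : ∀ i, (D i).Ok) (hM : Molteni D) :
    AFam (m : ℝ) (fun i => (D i).f) (fun i t => ((1 + |t|) * (D i).C) ^ (m : ℝ)) where
  m0 := by positivity
  Q1 := by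
    intro i t
    refine Real.one_le_rpow ?_ (by positivity)
    have h1 := (D i).C_one (hD i).N_pos
    nlinarith [abs_nonneg t]
  Qs := by
    intro i t u
    have h1 := (D i).C_one (hD i).N_pos
    exact shift_pow (by positivity) h1 t u
  diff := fun i => (hD i).entire
  order := fun i => (hD i).order
  right := by
    intro δ hδ
    obtain ⟨B, hB⟩ := hM δ hδ
    refine ⟨|B|, fun i s hs => ?_⟩
    have h1 := (D i).C_one (hD i).N_pos
    refine (hB i s hs).trans ?_
    have h2 : (D i).C ≤ (1 + |s.im|) * (D i).C := by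
      nlinarith [abs_nonneg s.im]
    have h3 : (D i).C ≤ ((1 + |s.im|) * (D i).C) ^ (m : ℝ) := by
      refine h2.trans ?_
      conv_lhs => rw [← Real.rpow_one ((1 + |s.im|) * (D i).C)]
      exact Real.rpow_le_rpow_of_exponent_le (by linarith) (by exact_mod_cast hm)
    calc B * (D i).C ^ δ ≤ |B| * (D i).C ^ δ :=
          mul_le_mul_of_nonneg_right (le_abs_self B) (Real.rpow_nonneg (by linarith) _)
      _ ≤ _ := mul_le_mul_of_nonneg_left (Real.rpow_le_rpow (by linarith) h3 hδ.le) (abs_nonneg B)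
  refl := by
    refine ⟨16 ^ m, by positivity, fun i x t hx0 hx1 => ?_⟩
    obtain ⟨root, hroot, hfe⟩ := (hD i).fe
    have h1 := (D i).C_one (hD i).N_pos
    refine (refl_of_fe (hD i).N_pos (D i).mu (hD i).mu_re hroot hfe (t := t) hx0 hx1).trans ?_
    refine mul_le_mul_of_nonneg_right ?_ (norm_nonneg _)
    refine mul_le_mul_of_nonneg_left ?_ (by positivity)
    refine Real.rpow_le_rpow (by positivity) ?_ hx0
    have h2 := cond_shift (D i).N (D i).mu 0 t
    have e1 : (D i).N * ∏ j, (1 + ‖(D i).mu j - ((0 : ℝ) : ℂ) * Complex.I‖) = (D i).C := by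
      unfold Datum.C; simp
    rw [e1, zero_add] at h2
    refine h2.trans ?_
    rw [Real.mul_rpow (by positivity) (by linarith)]
    refine mul_le_mul_of_nonneg_left ?_ (by positivity)
    conv_lhs => rw [← Real.rpow_one (D i).C]
    exact Real.rpow_le_rpow_of_exponent_le h1 (by exact_mod_cast hm)

end proofs

/-- **Theorem.** Families of L-functions of `GL(m)`; families of primitive Dirichlet characters. -/
theorem result :
    (∀ (ι : Type) (J : ι → Type) [∀ i, Fintype (J i)] (m : ℕ) (D : (i : ι) → J i → Datum m)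
      (Y : ι → ℝ) (w : (i : ι) → J i → ℝ) (p : ℝ), 1 ≤ m → 0 < p → (∀ i j, (D i j).Ok) →
      Molteni (fun x : Sigma J => D x.1 x.2) → (∀ i, 1 ≤ Y i) → (∀ i j, (D i j).C ≤ Y i) →
      (∀ i j, 0 ≤ w i j) → (∃ A : ℝ, ∀ i, ∑ j, w i j ≤ A * Y i ^ A) →
      Conclusion (Moment (fun i j => (D i j).f) w p) (fun i t => (1 + |t|) * Y i)) ∧
    (∀ (ι : Type) (J : ι → Type) [∀ i, Fintype (J i)] (q : (i : ι) → J i → ℕ) [∀ i j, NeZero (q i j)]
      (χ : (i : ι) → (j : J i) → DirichletCharacter ℂ (q i j)) (Y : ι → ℝ) (w : (i : ι) → J i → ℝ) (p : ℝ),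
      0 < p → (∀ i j, 1 < q i j ∧ (χ i j).IsPrimitive) → (∀ i, 1 ≤ Y i) → (∀ i j, (q i j : ℝ) ≤ Y i) →
      (∀ i j, 0 ≤ w i j) → (∃ A : ℝ, ∀ i, ∑ j, w i j ≤ A * Y i ^ A) →
      Conclusion (Moment (fun i j => DirichletCharacter.LFunction (χ i j)) w p)
        (fun i t => (1 + |t|) * Y i)) := by
  refine ⟨fun ι J _ m D Y w p hm hp hD hM hY hC hw hA => conclusion_of ?_,
    fun ι J _ q _ χ Y w p hp hχ hY hq hw hA => conclusion_of ?_⟩
  · have h1 := afam_gl hm (fun x : Sigma J => hD x.1 x.2) hM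
    have h2 : H855R2.SF.AFam (m : ℝ) (fun x : Sigma J => (D x.1 x.2).f)
        (fun x t => ((1 + |t|) * Y x.1) ^ (m : ℝ)) :=
      Pool.Agent.N573.AEP.AFam.comp h1 (fun x => x) (by positivity) (fun x t => by
        refine Real.rpow_le_rpow ?_ ?_ (by positivity)
        · have := (D x.1 x.2).C_one (hD x.1 x.2).N_pos
          positivity
        · exact mul_le_mul_of_nonneg_left (hC x.1 x.2) (by positivity))
        (fun x t u => Pool.Agent.N573.AEP.shift_pow (by positivity) (hY x.1) t u)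
    exact Pool.Agent.N573.AEP.pers_moment (L := fun i j => (D i j).f) (by exact_mod_cast hm) hp h2 hY hw hA
  · have h2 : H855R2.SF.AFam (1 : ℝ) (fun x : Sigma J => DirichletCharacter.LFunction (χ x.1 x.2))
        (fun x t => ((1 + |t|) * Y x.1) ^ (1 : ℝ)) :=
      Pool.Agent.N573.AEP.AFam.comp (H855R2.SF.dir_afam (fun _ _ => True)) (fun x : Sigma J =>
        (⟨q x.1 x.2, (hχ x.1 x.2).1, χ x.1 x.2, (hχ x.1 x.2).2, trivial⟩ : H855R2.SF.DC (fun _ _ => True)))
        zero_le_one (fun x t => by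
          rw [Real.rpow_one]
          show (q x.1 x.2 : ℝ) * (1 + |t|) ≤ _
          rw [mul_comm]
          exact mul_le_mul_of_nonneg_left (hq x.1 x.2) (by positivity))
        (fun x t u => Pool.Agent.N573.AEP.shift_pow zero_le_one (hY x.1) t u)
    exact Pool.Agent.N573.AEP.pers_moment (L := fun i j => DirichletCharacter.LFunction (χ i j)) le_rfl hp h2 hY hw hA

end Pool.Agent.Results.MP_52e316_nt.AlmostEveryPointMoments
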