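import Mathlib
import Pool.Agent.N573.TLG.F

/-!
# Which lengths of means decide the Grand Lindelöf Hypothesis for `GL(m)`, uniformly in the family

Let `π` run through (a family of) cuspidal representations of `GL(m)`, normalised as in the problem, and let
`X = (1 + |t|) C_π`.  For a real `h` and `κ ≥ 0` consider the bound
`∫_t^{t+h} L(1/2 + iu, π) du = O(X^(κ + ε))`, uniformly in `π` and `t` (`Means h κ`), and the bound
`L(1/2 + it, π) = O(X^(κ + ε))` itself (`Exponent κ`; for `κ = 0` this is the Grand Lindelöf Hypothesis).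

* (law) With `P(t, h) = ∫_t^{t+h} ell(u) du`, where `-ell` is the logarithmic derivative of the factor of the
  functional equation at `1/2 + iu`, one has, for all real `t` and `h`, exactly
  `dist(P(t, h)/2π, ℤ) |L(1/2 + it, π)| ≤ |L(1/2 + i(t + h), π) - L(1/2 + it, π)|/2`.
* (means) `Means h κ` is equivalent to the same bound for `L(1/2 + i(t + h), π) - L(1/2 + it, π)`.
* (two lengths) If `h ≠ 0` and `h'/h` is not exponentially well approximable by rational numbers (this holds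
  for all algebraic irrational quotients, and outside a set of Hausdorff dimension zero), then `Exponent κ` is
  equivalent to `Means h κ` and `Means h' κ` together; there is a local form of this, uniform in `π` and `t`:
  if both differences are bounded by `M` at the points `1/2 + iu`, `|u - t| ≤ C X^ε`, then
  `|L(1/2 + it, π)| ≤ C X^ε (1 + M)`.
* (one length) If some archimedean parameter `mu_j` satisfies `|mu_j - it| ≤ X^η` (for example if the
  archimedean parameters and `t` are bounded, the conductor aspect), then a single length `h ≠ 0`, whichever it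
  is, suffices; here `η > 0` depends only on `κ`, `ε` and `m`.
* (the set of lengths) For each `κ ≥ 0` the `h` with `Means h κ` form an additive subgroup of `ℝ`, which is `ℝ`
  if and only if `Exponent κ` holds; otherwise it is contained in a countable union of closed sets of Hausdorff
  dimension zero and all quotients of its elements are exponentially well approximable.

The theorem uses only classical facts: the functional equation, entire of finite order,
`Re mu_j ≤ 1/2 - δ` for some `δ > 0` (for `GL(m)` with `δ = 1/(m² + 1)` by Luo, Rudnick and Sarnak; for one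
representation, or finitely many, it is `Re mu_j < 1/2`), `∑ Im mu_j = 0` (the normalisation of the problem)
and Molteni's bound.  For primitive Dirichlet characters of modulus `q > 1` (`m = 1`) all of them are proved
and the result holds with `X = q (1 + |t|)`.
-/

set_option autoImplicit false

open Set

namespace Pool.Agent.Results.MP_52e316_nt.TwoLengthsGLm

/-- The data of a standard L-function of `GL(m)`: the conductor `N`, the archimedean parameters `mu j` (the
factor at infinity is `∏ j, Γ_ℝ (s - mu j)`) and the L-function `f` (continued to the complex plane). -/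
structure Datum (m : ℕ) where
  N : ℕ
  mu : Fin m → ℂ
  f : ℂ → ℂ

/-- The analytic conductor `C = N ∏ j, (1 + |mu j|)`. -/
noncomputable def Datum.C {m : ℕ} (D : Datum m) : ℝ := D.N * ∏ j, (1 + ‖D.mu j‖)

/-- The classical properties: `N ≥ 1`, `Re (mu j) ≤ 1/2 - δ`, `∑ j, Im (mu j) = 0`, `f` is entire, of finite
order in the strip `-1/4 ≤ Re s ≤ 5/4`, and satisfies the functional equation
`Λ(s) = root N^(1/2-s) conj (Λ(1 - conj s))`, `Λ(s) = f(s) ∏ j, Γ_ℝ (s - mu j)`, with `|root| = 1` (divided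
by the gamma factors of both sides). -/
structure Datum.Ok {m : ℕ} (D : Datum m) (δ : ℝ) : Prop where
  N_pos : 0 < D.N
  gap : ∀ j, (D.mu j).re ≤ 1 / 2 - δ
  im_sum : ∑ j, (D.mu j).im = 0
  entire : Differentiable ℂ D.f
  order : ∃ A : ℝ, ∀ s : ℂ, -1 / 4 ≤ s.re → s.re ≤ 5 / 4 →
    ‖D.f s‖ ≤ Real.exp (A * (1 + |s.im|) ^ A)
  fe : ∃ root : ℂ, ‖root‖ = 1 ∧ ∀ s : ℂ,
    D.f s * ∏ j, (Complex.Gammaℝ (1 - s - (starRingEnd ℂ) (D.mu j)))⁻¹ =
      root * (D.N : ℂ) ^ (1 / 2 - s) * (starRingEnd ℂ) (D.f (1 - (starRingEnd ℂ) s)) *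
        ∏ j, (Complex.Gammaℝ (s - D.mu j))⁻¹

/-- Molteni's bound to the right of the critical strip, uniform in the family. -/
def Molteni {ι : Type} {m : ℕ} (D : ι → Datum m) : Prop := ∀ ε : ℝ, 0 < ε → ∃ B : ℝ, ∀ (i : ι) (s : ℂ),
  1 + ε ≤ s.re → ‖(D i).f s‖ ≤ B * (D i).C ^ ε

open Classical in
/-- The data of the L-function of a Dirichlet character modulo `q`: `N = q`, `mu = 0` for an even and `-1` for
an odd character. -/
noncomputable def dirichlet {q : ℕ} [NeZero q] (χ : DirichletCharacter ℂ q) : Datum 1 :=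
  ⟨q, fun _ => if χ.Even then 0 else -1, DirichletCharacter.LFunction χ⟩

/-- The value at `1/2 + it`. -/
noncomputable def Datum.val {m : ℕ} (D : Datum m) (t : ℝ) : ℂ := D.f (1 / 2 + t * Complex.I)

/-- `ell(u) = log N + ∑ j, 2 Re (Γ_ℝ'/Γ_ℝ)(1/2 + iu - mu j)`: minus the logarithmic derivative at `1/2 + iu` of
the factor of the functional equation. -/
noncomputable def Datum.ell {m : ℕ} (D : Datum m) (u : ℝ) : ℝ :=
  Real.log D.N + ∑ j, 2 * (logDeriv Complex.Gammaℝ (1 / 2 + u * Complex.I - D.mu j)).re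

variable {ι : Type} {m : ℕ}

/-- `f(1/2 + it) = O(X^(κ + ε))` for every `ε > 0`, uniformly in the family. -/
def Exponent (D : ι → Datum m) (X : ι → ℝ → ℝ) (κ : ℝ) : Prop :=
  ∀ ε : ℝ, 0 < ε → ∃ B : ℝ, ∀ (i : ι) (t : ℝ), ‖(D i).val t‖ ≤ B * X i t ^ (κ + ε)

/-- `f(1/2 + i(t + h)) - f(1/2 + it) = O(X^(κ + ε))` for every `ε > 0`, uniformly in the family. -/
def Increments (D : ι → Datum m) (X : ι → ℝ → ℝ) (h κ : ℝ) : Prop :=
  ∀ ε : ℝ, 0 < ε → ∃ B : ℝ, ∀ (i : ι) (t : ℝ),
    ‖(D i).val (t + h) - (D i).val t‖ ≤ B * X i t ^ (κ + ε)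

/-- `∫_t^{t+h} f(1/2 + iu) du = O(X^(κ + ε))` for every `ε > 0`, uniformly in the family. -/
def Means (D : ι → Datum m) (X : ι → ℝ → ℝ) (h κ : ℝ) : Prop :=
  ∀ ε : ℝ, 0 < ε → ∃ B : ℝ, ∀ (i : ι) (t : ℝ),
    ‖∫ u in t..(t + h), (D i).val u‖ ≤ B * X i t ^ (κ + ε)

/-- There is `c > 0` such that `|q α - p| ≤ exp (- c q)` for some arbitrarily large natural numbers `q` and
integers `p`. -/
def ExpApprox (α : ℝ) : Prop := ∃ c : ℝ, 0 < c ∧ ∀ Q : ℕ, ∃ q : ℕ, Q ≤ q ∧ ∃ p : ℤ,
  |(q : ℝ) * α - p| ≤ Real.exp (-(c * q))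

/-- The conclusion for a family. -/
structure Conclusion (D : ι → Datum m) (X : ι → ℝ → ℝ) : Prop where
  /-- the exact law for one length -/
  law : ∀ (i : ι) (t h x : ℝ), x = (∫ u in t..(t + h), (D i).ell u) / (2 * Real.pi) →
    |x - round x| * ‖(D i).val t‖ ≤ ‖(D i).val (t + h) - (D i).val t‖ / 2
  /-- means and increments -/
  means : ∀ h κ : ℝ, 0 ≤ κ → (Means D X h κ ↔ Increments D X h κ)
  /-- two lengths, local form -/
  two_local : ∀ h h' : ℝ, h ≠ 0 → ¬ ExpApprox (h' / h) → ∀ ε : ℝ, 0 < ε → ∃ C : ℝ, ∀ (i : ι) (t M : ℝ),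
    (∀ u : ℝ, |u - t| ≤ C * X i t ^ ε → ‖(D i).val (u + h) - (D i).val u‖ ≤ M ∧
      ‖(D i).val (u + h') - (D i).val u‖ ≤ M) → ‖(D i).val t‖ ≤ C * X i t ^ ε * (1 + M)
  /-- two lengths -/
  two : ∀ h h' κ : ℝ, h ≠ 0 → ¬ ExpApprox (h' / h) → 0 ≤ κ →
    (Exponent D X κ ↔ Means D X h κ ∧ Means D X h' κ)
  /-- one length near the parameters, local form -/
  one_local : ∀ ε : ℝ, 0 < ε → ∃ η : ℝ, 0 < η ∧ ∀ h : ℝ, h ≠ 0 → ∃ C : ℝ, ∀ (i : ι) (t M : ℝ),
    (∃ j, ‖(D i).mu j - t * Complex.I‖ ≤ X i t ^ η) →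
      (∀ u : ℝ, |u - t| ≤ C * X i t ^ ε → ‖(D i).val (u + h) - (D i).val u‖ ≤ M) →
        ‖(D i).val t‖ ≤ C * X i t ^ ε * (1 + M)
  /-- one length near the parameters -/
  one : ∀ κ ε : ℝ, 0 ≤ κ → 0 < ε → ∃ η : ℝ, 0 < η ∧ ∀ h : ℝ, h ≠ 0 → Means D X h κ →
    ∃ B : ℝ, ∀ (i : ι) (t : ℝ), (∃ j, ‖(D i).mu j - t * Complex.I‖ ≤ X i t ^ η) →
      ‖(D i).val t‖ ≤ B * X i t ^ (κ + ε)
  /-- the set of the lengths -/
  lengths : ∀ κ : ℝ, 0 ≤ κ → ∃ A : AddSubgroup ℝ, (∀ h, h ∈ A ↔ Means D X h κ) ∧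
    (A = ⊤ ↔ Exponent D X κ) ∧ (¬ Exponent D X κ →
      (∃ F : ℕ → Set ℝ, (∀ n, IsClosed (F n) ∧ dimH (F n) = 0) ∧ (A : Set ℝ) ⊆ ⋃ n, F n) ∧
        ∀ h ∈ A, ∀ h' ∈ A, h ≠ 0 → ExpApprox (h' / h))

section proofs

open Pool.Agent.W188.GLR Pool.Agent.N573.TLG

theorem conclusion_of {D : ι → Datum m} {X : ι → ℝ → ℝ} {δ : ℝ}
    (H : GLData m (fun i => (D i).N) (fun i => (D i).mu) (fun i => (D i).f) X δ) :
    Conclusion D X where
  law := by
    intro i t h x hx
    obtain ⟨root, hroot, hfe⟩ := H.fe i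
    have h1 := Pool.Agent.N573.TLG.law (H.N_pos i) (gl_mu H i) hroot hfe t h
    rw [hx]
    exact h1
  means := fun h κ hκ => ⟨fun hM => means_incr H hκ hM, fun hI => incr_means H hκ hI⟩
  two_local := by
    intro h h' hh hα ε hε
    obtain ⟨C, _, hC⟩ := local_two H hh hα hε
    exact ⟨C, hC⟩
  two := by
    intro h h' κ hh hα hκ
    refine ⟨fun hE => ⟨incr_means H hκ (exp_incrX H hκ hE h), incr_means H hκ (exp_incrX H hκ hE h')⟩,
      fun hM => two_global H hκ hh hα (means_incr H hκ hM.1) (means_incr H hκ hM.2)⟩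
  one_local := by
    intro ε hε
    refine ⟨s0 m ε, s0_pos m hε, fun h hh => ?_⟩
    obtain ⟨C, _, hC⟩ := local_one H hε hh
    exact ⟨C, hC⟩
  one := by
    intro κ ε hκ hε
    refine ⟨s0 m (e2 κ ε), s0_pos m (e2_pos hκ hε), fun h hh hM => ?_⟩
    exact near_global H hκ hε hh (means_incr H hκ hM)
  lengths := fun κ hκ => structure_X H hκ

end proofs

theorem result :
    (∀ (ι : Type) (m : ℕ) (δ : ℝ) (D : ι → Datum m), 1 ≤ m → 0 < δ → (∀ i, (D i).Ok δ) → Molteni D →
      Conclusion D (fun i t => (1 + |t|) * (D i).C)) ∧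
    (∀ (ι : Type) (q : ι → ℕ) [∀ i, NeZero (q i)] (χ : (i : ι) → DirichletCharacter ℂ (q i)),
      (∀ i, 1 < q i ∧ (χ i).IsPrimitive) →
      Conclusion (fun i => dirichlet (χ i)) (fun i t => (q i : ℝ) * (1 + |t|))) :=
  ⟨fun _ _ _ _ hm hδ hD hM => conclusion_of (Pool.Agent.W188.GLR.GLData.of_gl hm hδ
      (fun i => (hD i).N_pos) (fun i => (hD i).gap) (fun i => (hD i).im_sum)
      (fun i => (hD i).entire) (fun i => (hD i).order) (fun i => (hD i).fe) hM),
    fun ι q _ χ h => conclusion_of (δ := 1 / 2) (by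
      have H := Pool.Agent.W188.GLR.GLData.of_dir h
      have e : (fun (i : ι) => (dirichlet (χ i)).mu) = fun (i : ι) (_ : Fin 1) => -H370.DL.aa (χ i) := by
        funext i _
        unfold dirichlet H370.DL.aa
        by_cases hE : (χ i).Even <;> simp [hE]
      rw [e]
      exact H)⟩

end Pool.Agent.Results.MP_52e316_nt.TwoLengthsGLm
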